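import Pool.Agent.TH654.Odd.Hard
import Pool.Agent.TH654.Odd.Mem
import Pool.Agent.H622R2.CoNP

/-!
# The disjoint odd paths problem is NP-complete

So it is in co-NP if and only if NP = co-NP.

The reduction is from 3SAT.  For each variable there are two parallel paths (the sides of the
variable); these pairs are joined in a row from a vertex `u 0` in `X` to a vertex `u N`, which is
the only neighbour of a vertex `t` in `Y`.  For each clause `j` there are a vertex `x j` in `X`, a
vertex `y j` in `Y` with only one neighbour `q j`, and for each literal of the clause a vertex on
the corresponding side which is adjacent to `x j` and `q j`.  The number of paths is the number of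
elements of `Y`, so that each vertex of `Y` is the end of one path, and the vertices `q j` are used
by the paths ending at the vertices `y j`.  The graph is bipartite, and `u 0` is the only vertex in
`X` with odd distance from `t`.  So the path ending at `t` uses one side of each variable, and the
path ending at `y j` needs a vertex which is on an unused side, i.e. a true literal of the clause.
-/

set_option autoImplicit false

namespace Pool.Agent.Results.MP_636301_lc.OddPathsNPComplete

open Pool.Agent.NPC Pool.Agent.TH654.Odd

/-- **ODD-PATHS is NP-complete, and it is in co-NP if and only if NP = co-NP.**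
(1) ODD-PATHS is in `NP`. (2) Each language `L` in `NP` is reducible to ODD-PATHS by a
polynomial-time many-one reduction, all of whose instances are well-formed. (3) Hence ODD-PATHS is
in `coNP` if and only if `NP = coNP`. -/
theorem result :
    InNPP OddPaths ∧
    (∀ L : Set (List Bool), InNP L → ∃ f : List Bool → Inst,
      PolyTime (fun x => bits (f x)) ∧ (∀ x, Valid (f x)) ∧ ∀ x, x ∈ L ↔ OddPaths (f x)) ∧
    (InCoNPP OddPaths ↔ ∀ L : Set (List Bool), InNP L ↔ InCoNP L) := by
  refine ⟨inNPP_oddPaths, fun L hL => ?_, ?_⟩
  · obtain ⟨f, hf, hfv, hfL⟩ := hardPr_oddPaths L hL
    exact ⟨f, PC.toPolyTime hf, hfv, hfL⟩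
  · exact Pool.Agent.H622R2.inCoNP_iff_of_complete inNPP_oddPaths
      hardPr_oddPaths.toHardI.toNPHardP

end Pool.Agent.Results.MP_636301_lc.OddPathsNPComplete
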